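import Pool.Agent.DPL.StmtsB

/-!
Squad DPL (MP_d97b4e_co), rows KTS and NKT: the case `k = t + 1`, structure and numbers.
-/

set_option autoImplicit false

namespace Pool.Agent.DPL.H18

open Finset Pool.Agent.DPS

/-- Row KTS. -/
theorem kts : KTSStmt := by
  intro n t ht hn A hA
  by_cases h2 : ∃ F1 ∈ A, ∃ F2 ∈ A, F1 ≠ F2
  · obtain ⟨F1, hF1, F2, hF2, hne⟩ := h2
    have hne' : F1.1 ≠ F2.1 := fun h => hne (Subtype.ext h)
    have c1 : F1.1.card = t + 1 := F1.2
    have c2 : F2.1.card = t + 1 := F2.2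
    have hi : (F1.1 ∩ F2.1).card = t := by
      have h1 := hA F1 hF1 F2 hF2
      have h3 : (F1.1 ∩ F2.1).card < F1.1.card := by
        apply Finset.card_lt_card
        refine Finset.ssubset_iff_subset_ne.2 ⟨Finset.inter_subset_left, fun h => ?_⟩
        have hs : F1.1 ⊆ F2.1 := Finset.inter_eq_left.1 h
        exact hne' (Finset.eq_of_subset_of_card_le hs (by omega))
      omega
    have hu : (F1.1 ∪ F2.1).card = t + 2 := by
      have := Finset.card_union_add_card_inter F1.1 F2.1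
      omega
    by_cases hall : ∀ F ∈ A, F1.1 ∩ F2.1 ⊆ F.1
    · exact Or.inl ⟨F1.1 ∩ F2.1, hi, hall⟩
    · push Not at hall
      obtain ⟨F3, hF3, hn3⟩ := hall
      -- members which do not contain the intersection
      have small : ∀ F : KS n (t + 1), ¬ F1.1 ∩ F2.1 ⊆ F.1 → ((F1.1 ∩ F2.1) ∩ F.1).card + 1 ≤ t := by
        intro F hF
        have h3 : ((F1.1 ∩ F2.1) ∩ F.1).card < (F1.1 ∩ F2.1).card := by
          apply Finset.card_lt_card
          refine Finset.ssubset_iff_subset_ne.2 ⟨Finset.inter_subset_left, fun h => ?_⟩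
          exact hF (Finset.inter_eq_left.1 h)
        omega
      have inZ : ∀ F ∈ A, ¬ F1.1 ∩ F2.1 ⊆ F.1 → F.1 ⊆ F1.1 ∪ F2.1 := by
        intro F hF hnF
        have h1 := hA F hF F1 hF1
        have h2 := hA F hF F2 hF2
        have h3 := small F hnF
        have h4 : (F.1 ∩ F1.1) ∪ (F.1 ∩ F2.1) = F.1 ∩ (F1.1 ∪ F2.1) :=
          (Finset.inter_union_distrib_left _ _ _).symm
        have h5 : (F.1 ∩ F1.1) ∩ (F.1 ∩ F2.1) = (F1.1 ∩ F2.1) ∩ F.1 := by
          ext x; simp only [Finset.mem_inter]; tauto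
        have h6 := Finset.card_union_add_card_inter (F.1 ∩ F1.1) (F.1 ∩ F2.1)
        rw [h4, h5] at h6
        have h7 : F.1.card = t + 1 := F.2
        have h8 : F.1 ∩ (F1.1 ∪ F2.1) = F.1 :=
          Finset.eq_of_subset_of_card_le Finset.inter_subset_left (by omega)
        exact Finset.inter_eq_left.1 h8
      refine Or.inr ⟨F1.1 ∪ F2.1, hu, fun F hF => ?_⟩
      by_cases hsub : F1.1 ∩ F2.1 ⊆ F.1
      · by_contra hnot
        obtain ⟨x, hx, hxZ⟩ := Finset.not_subset.1 hnot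
        have hx3 : x ∉ F3.1 := fun h => hxZ (inZ F3 hF3 hn3 h)
        have hxT : x ∉ F1.1 ∩ F2.1 := fun h =>
          hxZ (Finset.mem_union_left _ (Finset.mem_inter.1 h).1)
        have hFe : F.1 = insert x (F1.1 ∩ F2.1) := by
          symm
          apply Finset.eq_of_subset_of_card_le
          · exact Finset.insert_subset hx hsub
          · rw [Finset.card_insert_of_notMem hxT, hi, F.2]
        have h1 := hA F hF F3 hF3
        have h2 : F.1 ∩ F3.1 ⊆ (F1.1 ∩ F2.1) ∩ F3.1 := by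
          intro y hy
          obtain ⟨hy1, hy2⟩ := Finset.mem_inter.1 hy
          rw [hFe, Finset.mem_insert] at hy1
          rcases hy1 with h | h
          · rw [h] at hy2; exact absurd hy2 hx3
          · exact Finset.mem_inter.2 ⟨h, hy2⟩
        have h3 := Finset.card_le_card h2
        have h4 := small F3 hn3
        omega
      · exact inZ F hF hsub
  · push Not at h2
    left
    rcases A.eq_empty_or_nonempty with h | ⟨F, hF⟩
    · obtain ⟨T', _, hT'⟩ := Finset.exists_subset_card_eq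
        (show t ≤ (Finset.univ : Finset (Fin n)).card by rw [Finset.card_univ, Fintype.card_fin]; omega)
      exact ⟨T', hT', fun F hF => by rw [h] at hF; exact absurd hF (Finset.notMem_empty _)⟩
    · obtain ⟨T', hT's, hT'⟩ := Finset.exists_subset_card_eq
        (show t ≤ F.1.card by rw [F.2]; omega)
      refine ⟨T', hT', fun G hG => ?_⟩
      rw [← h2 F hF G hG]
      exact hT's

/-- Row NKT. -/
theorem nkt : NKTStmt := by
  intro t r D μ ht hr hD hμ
  have hmono : (max ((t : ℝ) + 2 - μ) 0) ^ 2 ≤ (max (D - μ) 0) ^ 2 := by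
    apply pow_le_pow_left₀ (le_max_right _ _)
    exact max_le_max (by linarith) le_rfl
  rcases Nat.eq_zero_or_pos r with h0 | hr1
  · rw [h0]
    simp only [Nat.choose_zero_right, Nat.cast_one, one_mul, if_true, zero_mul, add_zero,
      Nat.cast_zero, sub_zero]
    exact hmono
  · obtain ⟨s, rfl⟩ : ∃ s, r = s + 1 := ⟨r - 1, by omega⟩
    simp only [Nat.add_eq_zero_iff, one_ne_zero, and_false, if_false, Nat.add_sub_cancel]
    obtain ⟨a, ha⟩ : ∃ a : ℝ, a = (t.choose (s + 1) : ℝ) := ⟨_, rfl⟩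
    obtain ⟨b, hb⟩ : ∃ b : ℝ, b = (t.choose s : ℝ) := ⟨_, rfl⟩
    obtain ⟨c, hc⟩ : ∃ c : ℝ, c = ((t + 2).choose (s + 1) : ℝ) := ⟨_, rfl⟩
    have ha0 : 0 ≤ a := by rw [ha]; positivity
    have hb0 : 0 ≤ b := by rw [hb]; positivity
    have hc0 : 0 ≤ c := by rw [hc]; positivity
    -- identities
    have e1 : c * ((t : ℝ) + 2 - ((s : ℝ) + 1)) = ((t : ℝ) + 2) * (a + b) := by
      have h := Nat.choose_mul_succ_eq (t + 1) (s + 1)
      have h' : (((t + 1).choose (s + 1) * (t + 1 + 1) : ℕ) : ℝ) =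
          (((t + 1 + 1).choose (s + 1) * (t + 1 + 1 - (s + 1)) : ℕ) : ℝ) := by rw [h]
      rw [Nat.cast_mul, Nat.cast_mul, Nat.cast_sub (by omega), Nat.choose_succ_succ t s] at h'
      push_cast at h'
      rw [hc, ha, hb]
      have e : (t + 2).choose (s + 1) = (t + 1 + 1).choose (s + 1) := rfl
      rw [e]
      linarith
    have e2 : ((t : ℝ) + 2 - ((s : ℝ) + 1)) * (a + b) = ((t : ℝ) + 2) * a + b := by
      have h := Nat.choose_mul_succ_eq t (s + 1)
      have h' : ((t.choose (s + 1) * (t + 1) : ℕ) : ℝ) =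
          (((t + 1).choose (s + 1) * (t + 1 - (s + 1)) : ℕ) : ℝ) := by rw [h]
      rw [Nat.cast_mul, Nat.cast_mul, Nat.cast_sub (by omega), Nat.choose_succ_succ t s] at h'
      push_cast at h'
      rw [ha, hb]
      linarith
    have e3 : c ≤ a + b * ((t : ℝ) + 2) := by
      have h := Nat.choose_mul_succ_eq t s
      have h1 : (t + 1).choose s ≤ t.choose s * (t + 1) := by
        rw [h]
        exact Nat.le_mul_of_pos_right _ (by omega)
      have h2 : (((t + 1).choose s : ℕ) : ℝ) ≤ b * ((t : ℝ) + 1) := by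
        rw [hb]; exact_mod_cast h1
      have h3 : c = (((t + 1).choose s : ℕ) : ℝ) + (b + a) := by
        rw [hc, ha, hb]
        have : (t + 2).choose (s + 1) = (t + 1).choose s + (t.choose s + t.choose (s + 1)) := by
          rw [show t + 2 = (t + 1) + 1 from rfl, Nat.choose_succ_succ (t + 1) s,
            Nat.choose_succ_succ t s]
        rw [this]
        push_cast
        ring
      rw [h3]
      linarith
    have hsr : (s : ℝ) + 1 ≤ t := by exact_mod_cast hr
    have hs0 : (0 : ℝ) ≤ s := Nat.cast_nonneg _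
    have htr : (1 : ℝ) ≤ t := by exact_mod_cast ht
    -- the inequality for `μ ≤ 1`
    have main : ∀ m : ℝ, c * ((t : ℝ) + 2 - ((s : ℝ) + 1) - m) ^ 2 ≤
        a * ((t : ℝ) + 2 - m) ^ 2 + b * ((t : ℝ) + 2) * (1 - m) ^ 2 := by
      intro m
      have key : a * ((t : ℝ) + 2 - m) ^ 2 + b * ((t : ℝ) + 2) * (1 - m) ^ 2 -
          c * ((t : ℝ) + 2 - ((s : ℝ) + 1) - m) ^ 2 = m ^ 2 * (a + b * ((t : ℝ) + 2) - c) := by
        linear_combination (-((t : ℝ) + 2)) * e2 +
          (2 * m - ((t : ℝ) + 2 - ((s : ℝ) + 1))) * e1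
      have : 0 ≤ m ^ 2 * (a + b * ((t : ℝ) + 2) - c) := mul_nonneg (sq_nonneg _) (by linarith)
      linarith
    rw [← ha, ← hb, ← hc]
    push_cast
    rcases le_total μ 1 with hμ1 | hμ1
    · have m1 : max ((t : ℝ) + 2 - ((s : ℝ) + 1) - μ) 0 = (t : ℝ) + 2 - ((s : ℝ) + 1) - μ :=
        max_eq_left (by linarith)
      have m2 : max ((t : ℝ) + 2 - μ) 0 = (t : ℝ) + 2 - μ := max_eq_left (by linarith)
      have m3 : max (1 - μ) 0 = 1 - μ := max_eq_left (by linarith)
      rw [m2] at hmono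
      rw [m1, m3]
      have h1 := main μ
      have h2 := mul_le_mul_of_nonneg_left hmono ha0
      have h3 : b * ((t : ℝ) + 2) * (1 - μ) ^ 2 ≤ b * D * (1 - μ) ^ 2 :=
        mul_le_mul_of_nonneg_right (mul_le_mul_of_nonneg_left hD hb0) (sq_nonneg _)
      linarith
    · have m3 : max (1 - μ) 0 = 0 := max_eq_right (by linarith)
      rw [m3]
      have h4 : b * D * 0 ^ 2 = 0 := by ring
      rw [h4, add_zero]
      refine le_trans ?_ (mul_le_mul_of_nonneg_left hmono ha0)
      rcases le_total ((t : ℝ) + 2 - ((s : ℝ) + 1) - μ) 0 with h5 | h5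
      · rw [max_eq_right h5]
        have : c * 0 ^ 2 = 0 := by ring
        rw [this]
        positivity
      · rw [max_eq_left h5, max_eq_left (show 0 ≤ (t : ℝ) + 2 - μ by linarith)]
        have h6 := main 1
        have h7 : b * ((t : ℝ) + 2) * (1 - 1) ^ 2 = 0 := by ring
        rw [h7, add_zero] at h6
        -- compare the quotients
        have h8 : ((t : ℝ) + 2 - ((s : ℝ) + 1) - μ) * ((t : ℝ) + 1) ≤
            ((t : ℝ) + 2 - ((s : ℝ) + 1) - 1) * ((t : ℝ) + 2 - μ) := by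
          nlinarith
        have h9 : (((t : ℝ) + 2 - ((s : ℝ) + 1) - μ) * ((t : ℝ) + 1)) ^ 2 ≤
            (((t : ℝ) + 2 - ((s : ℝ) + 1) - 1) * ((t : ℝ) + 2 - μ)) ^ 2 :=
          pow_le_pow_left₀ (mul_nonneg h5 (by linarith)) h8 2
        have h10 := mul_le_mul_of_nonneg_left h9 hc0
        have h11 := mul_le_mul_of_nonneg_right h6 (sq_nonneg ((t : ℝ) + 2 - μ))
        have h12 : (c * ((t : ℝ) + 2 - ((s : ℝ) + 1) - μ) ^ 2) * ((t : ℝ) + 1) ^ 2 ≤
            (a * ((t : ℝ) + 2 - μ) ^ 2) * ((t : ℝ) + 1) ^ 2 := by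
          calc (c * ((t : ℝ) + 2 - ((s : ℝ) + 1) - μ) ^ 2) * ((t : ℝ) + 1) ^ 2
              = c * (((t : ℝ) + 2 - ((s : ℝ) + 1) - μ) * ((t : ℝ) + 1)) ^ 2 := by ring
            _ ≤ c * (((t : ℝ) + 2 - ((s : ℝ) + 1) - 1) * ((t : ℝ) + 2 - μ)) ^ 2 := h10
            _ = c * ((t : ℝ) + 2 - ((s : ℝ) + 1) - 1) ^ 2 * ((t : ℝ) + 2 - μ) ^ 2 := by ring
            _ ≤ a * ((t : ℝ) + 2 - 1) ^ 2 * ((t : ℝ) + 2 - μ) ^ 2 := h11
            _ = _ := by ring
        exact le_of_mul_le_mul_right h12 (by positivity)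

end Pool.Agent.DPL.H18
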