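import Pool.Agent.DPL.StmtsB
import Pool.Agent.Helper23_DPL.PRM
import Pool.Agent.Helper18_DPL.KTS

/-!
Squad DPL (MP_d97b4e_co), row KT1: the case `k = t + 1`, truncated squares.
-/

set_option autoImplicit false

namespace Pool.Agent.DPL.H18

open Finset Pool.Agent.DPS

theorem dg_ind {n k : ℕ} (A : Finset (KS n k)) (R : Finset (Fin n)) :
    dg (ind A) R = ((A.filter fun F => R ⊆ F.1).card : ℝ) := by
  unfold dg ind
  rw [Finset.card_filter, Nat.cast_sum, ← Finset.sum_filter_add_sum_filter_not univ (fun F => F ∈ A)]
  rw [Finset.sum_eq_zero (s := univ.filter fun F => ¬ F ∈ A)]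
  · rw [add_zero]
    have : univ.filter (fun F : KS n k => F ∈ A) = A := by ext F; simp
    rw [this]
    refine Finset.sum_congr rfl fun F hF => ?_
    rw [if_pos hF]
    split_ifs <;> simp
  · intro F hF
    rw [if_neg (Finset.mem_filter.1 hF).2]
    simp

theorem dg_star {n k : ℕ} (T R : Finset (Fin n)) :
    dg (star k T) R = ((univ.filter fun F : KS n k => R ⊆ F.1 ∧ T ⊆ F.1).card : ℝ) := by
  unfold dg Pool.Agent.DPS.star
  rw [Finset.card_filter, Nat.cast_sum]
  refine Finset.sum_congr rfl fun F _ => ?_
  by_cases h1 : R ⊆ F.1 <;> by_cases h2 : T ⊆ F.1 <;> simp [h1, h2]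

theorem dg_nonneg {n k : ℕ} (A : Finset (KS n k)) (R : Finset (Fin n)) : 0 ≤ dg (ind A) R := by
  rw [dg_ind]; positivity

/-- the sum for a star depends only on the size -/
theorem star_perm {n k : ℕ} (T' T : Finset (Fin n)) (h : T'.card = T.card) (r : ℕ) (φ : ℝ → ℝ) :
    ∑ R ∈ powersetCard r (univ : Finset (Fin n)), φ (dg (star k T') R) =
      ∑ R ∈ powersetCard r (univ : Finset (Fin n)), φ (dg (star k T) R) := by
  obtain ⟨σ, hσ, _⟩ := H23.prm n T.card ⟨T', h⟩ ⟨T', h⟩ ⟨T, rfl⟩ ⟨T, rfl⟩ (by
    simp only [Finset.inter_self]; exact h)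
  simp only at hσ
  have hcard : ∀ R : Finset (Fin n), (R.map σ.toEmbedding).card = R.card := fun R =>
    Finset.card_map _
  -- the degree
  have hdg : ∀ R : Finset (Fin n), dg (star k T') R = dg (star k T) (R.map σ.toEmbedding) := by
    intro R
    rw [dg_star, dg_star]
    congr 1
    refine Finset.card_bij (fun F _ => ⟨F.1.map σ.toEmbedding, by rw [Finset.card_map]; exact F.2⟩)
      ?_ ?_ ?_
    · intro F hF
      rw [Finset.mem_filter] at hF ⊢
      refine ⟨Finset.mem_univ _, ?_, ?_⟩
      · exact Finset.map_subset_map.2 hF.2.1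
      · rw [← hσ]; exact Finset.map_subset_map.2 hF.2.2
    · intro F _ G _ hFG
      have := congrArg Subtype.val hFG
      exact Subtype.ext (Finset.map_injective _ this)
    · intro G hG
      rw [Finset.mem_filter] at hG
      have e : (G.1.map σ.symm.toEmbedding).map σ.toEmbedding = G.1 := by
        rw [Finset.map_map]
        ext x
        simp
      refine ⟨⟨G.1.map σ.symm.toEmbedding, by rw [Finset.card_map]; exact G.2⟩, ?_, Subtype.ext e⟩
      rw [Finset.mem_filter]
      refine ⟨Finset.mem_univ _, ?_, ?_⟩
      · apply (Finset.map_subset_map (f := σ.toEmbedding)).1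
        simp only [e]
        exact hG.2.1
      · apply (Finset.map_subset_map (f := σ.toEmbedding)).1
        simp only [e]
        rw [hσ]
        exact hG.2.2
  refine Finset.sum_bij (fun R _ => R.map σ.toEmbedding) ?_ ?_ ?_ ?_
  · intro R hR
    rw [Finset.mem_powersetCard] at hR ⊢
    exact ⟨Finset.subset_univ _, by rw [hcard]; exact hR.2⟩
  · intro R _ S _ h
    exact Finset.map_injective _ h
  · intro R hR
    rw [Finset.mem_powersetCard] at hR
    refine ⟨R.map σ.symm.toEmbedding, ?_, ?_⟩
    · rw [Finset.mem_powersetCard]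
      exact ⟨Finset.subset_univ _, by rw [Finset.card_map]; exact hR.2⟩
    · rw [Finset.map_map]
      ext x
      simp
  · intro R _
    rw [hdg R]

/-- Row KT1. -/
theorem kt1 (h1 : KTSStmt) (h2 : NKTStmt) : KT1Stmt := by
  intro n t r ht hr hn μ hμ A hA T hT
  rcases h1 n t ht (by omega) A hA with ⟨T', hT', hsub⟩ | ⟨Z, hZ, hsub⟩
  · -- all members contain `T'`
    rw [← star_perm (k := t + 1) T' T (by rw [hT', hT]) r (fun x => (max (x - μ) 0) ^ 2)]
    refine Finset.sum_le_sum fun R _ => ?_
    apply pow_le_pow_left₀ (le_max_right _ _)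
    refine max_le_max ?_ le_rfl
    have : dg (ind A) R ≤ dg (star (t + 1) T') R := by
      rw [dg_ind, dg_star]
      exact_mod_cast Finset.card_le_card (fun F hF => by
        rw [Finset.mem_filter] at hF ⊢
        exact ⟨Finset.mem_univ _, hF.2, hsub F hF.1⟩)
    linarith
  · -- all members are in `Z`
    -- upper bound
    have ub : ∑ R ∈ powersetCard r (univ : Finset (Fin n)), (max (dg (ind A) R - μ) 0) ^ 2 ≤
        ((t + 2).choose r : ℝ) * (max ((t : ℝ) + 2 - r - μ) 0) ^ 2 := by
      have hle : ∀ R ∈ powersetCard r (univ : Finset (Fin n)), (max (dg (ind A) R - μ) 0) ^ 2 ≤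
          if R ∈ powersetCard r Z then (max ((t : ℝ) + 2 - r - μ) 0) ^ 2 else 0 := by
        intro R hR
        rw [Finset.mem_powersetCard] at hR
        by_cases hRZ : R ⊆ Z
        · rw [if_pos (Finset.mem_powersetCard.2 ⟨hRZ, hR.2⟩)]
          apply pow_le_pow_left₀ (le_max_right _ _)
          refine max_le_max ?_ le_rfl
          have hc : (A.filter fun F => R ⊆ F.1).card ≤ (Z \ R).card := by
            -- map `F ↦` the missing point
            have hmem : ∀ F ∈ A.filter (fun F => R ⊆ F.1), ∃ x, x ∈ Z \ R ∧ F.1 = Z.erase x := by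
              intro F hF
              rw [Finset.mem_filter] at hF
              have hFZ := hsub F hF.1
              have hFc : F.1.card = t + 1 := F.2
              have hd : (Z \ F.1).card = 1 := by
                rw [Finset.card_sdiff_of_subset hFZ]; omega
              obtain ⟨x, hx⟩ := Finset.card_eq_one.1 hd
              have hxm : x ∈ Z \ F.1 := by rw [hx]; exact Finset.mem_singleton_self _
              rw [Finset.mem_sdiff] at hxm
              refine ⟨x, Finset.mem_sdiff.2 ⟨hxm.1, fun h => hxm.2 (hF.2 h)⟩, ?_⟩
              apply Finset.eq_of_subset_of_card_le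
              · intro y hy
                exact Finset.mem_erase.2 ⟨fun h => hxm.2 (h ▸ hy), hFZ hy⟩
              · rw [Finset.card_erase_of_mem hxm.1]; omega
            have : Nonempty (Fin n) := ⟨⟨0, by omega⟩⟩
            choose! g hg using hmem
            refine Finset.card_le_card_of_injOn g (fun F hF => (hg F hF).1) ?_
            intro F hF G hG hFG
            have e1 := (hg F hF).2
            have e2 := (hg G hG).2
            rw [hFG] at e1
            exact Subtype.ext (e1.trans e2.symm)
          rw [dg_ind]
          have h3 : (Z \ R).card = t + 2 - r := by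
            rw [Finset.card_sdiff_of_subset hRZ, hZ, hR.2]
          rw [h3] at hc
          have h4 : ((A.filter fun F => R ⊆ F.1).card : ℝ) ≤ ((t + 2 - r : ℕ) : ℝ) := by
            exact_mod_cast hc
          rw [Nat.cast_sub (by omega)] at h4
          push_cast at h4
          linarith
        · rw [if_neg (fun h => hRZ (Finset.mem_powersetCard.1 h).1)]
          have h0 : dg (ind A) R = 0 := by
            rw [dg_ind, Finset.filter_eq_empty_iff.2, Finset.card_empty, Nat.cast_zero]
            intro F hF h
            exact hRZ (h.trans (hsub F hF))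
          rw [h0, max_eq_right (by linarith)]
          norm_num
      refine (Finset.sum_le_sum hle).trans (le_of_eq ?_)
      rw [← Finset.sum_filter, Finset.filter_mem_eq_inter, Finset.inter_eq_right.2
        (Finset.powersetCard_mono (Finset.subset_univ Z)), Finset.sum_const,
        Finset.card_powersetCard, hZ, nsmul_eq_mul]
    -- lower bound for the star
    have lb : (t.choose r : ℝ) * (max ((n : ℝ) - t - μ) 0) ^ 2 +
        (if r = 0 then 0 else (t.choose (r - 1) : ℝ)) * ((n : ℝ) - t) * (max (1 - μ) 0) ^ 2 ≤
        ∑ R ∈ powersetCard r (univ : Finset (Fin n)),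
          (max (dg (star (t + 1) T) R - μ) 0) ^ 2 := by
      have hin : ∀ x : Fin n, x ∉ T → (insert x T).card = t + 1 := fun x hx => by
        rw [Finset.card_insert_of_notMem hx, hT]
      -- degree of subsets of `T`
      have hd1 : ∀ R : Finset (Fin n), R ⊆ T → (n : ℝ) - t ≤ dg (star (t + 1) T) R := by
        intro R hR
        rw [dg_star]
        have hc : (univ \ T).attach.card ≤
            (univ.filter fun F : KS n (t + 1) => R ⊆ F.1 ∧ T ⊆ F.1).card := by
          refine Finset.card_le_card_of_injOn
            (fun x => (⟨insert x.1 T, hin x.1 (Finset.mem_sdiff.1 x.2).2⟩ : KS n (t + 1))) ?_ ?_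
          · intro x _
            simp only [Finset.coe_filter, Finset.mem_univ, true_and, Set.mem_ofPred_eq]
            exact ⟨hR.trans (Finset.subset_insert _ _), Finset.subset_insert _ _⟩
          · intro x _ y _ hxy
            have h1 : insert x.1 T = insert y.1 T := congrArg Subtype.val hxy
            have h2 : x.1 ∈ insert y.1 T := by rw [← h1]; exact Finset.mem_insert_self _ _
            rcases Finset.mem_insert.1 h2 with h | h
            · exact Subtype.ext h
            · exact absurd h (Finset.mem_sdiff.1 x.2).2
        rw [Finset.card_attach, Finset.card_sdiff_of_subset (Finset.subset_univ T),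
          Finset.card_univ, Fintype.card_fin, hT] at hc
        have h3 : ((n - t : ℕ) : ℝ) ≤
            ((univ.filter fun F : KS n (t + 1) => R ⊆ F.1 ∧ T ⊆ F.1).card : ℝ) := by
          exact_mod_cast hc
        rwa [Nat.cast_sub (by omega)] at h3
      -- degree of the other sets
      have hd2 : ∀ S : Finset (Fin n), S ⊆ T → ∀ x, x ∉ T →
          (1 : ℝ) ≤ dg (star (t + 1) T) (insert x S) := by
        intro S hS x hx
        rw [dg_star]
        have hc : 0 < (univ.filter fun F : KS n (t + 1) => insert x S ⊆ F.1 ∧ T ⊆ F.1).card := by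
          rw [Finset.card_pos]
          refine ⟨⟨insert x T, hin x hx⟩, ?_⟩
          rw [Finset.mem_filter]
          exact ⟨Finset.mem_univ _, Finset.insert_subset_insert _ hS, Finset.subset_insert _ _⟩
        exact_mod_cast hc
      have f0 : ∀ R : Finset (Fin n), 0 ≤ (max (dg (star (t + 1) T) R - μ) 0) ^ 2 :=
        fun R => sq_nonneg _
      have s1 : (t.choose r : ℝ) * (max ((n : ℝ) - t - μ) 0) ^ 2 ≤
          ∑ R ∈ powersetCard r T, (max (dg (star (t + 1) T) R - μ) 0) ^ 2 := by
        have e : (t.choose r : ℝ) * (max ((n : ℝ) - t - μ) 0) ^ 2 =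
            ∑ R ∈ powersetCard r T, (max ((n : ℝ) - t - μ) 0) ^ 2 := by
          rw [Finset.sum_const, Finset.card_powersetCard, hT, nsmul_eq_mul]
        rw [e]
        refine Finset.sum_le_sum fun R hR => ?_
        apply pow_le_pow_left₀ (le_max_right _ _)
        refine max_le_max ?_ le_rfl
        have := hd1 R (Finset.mem_powersetCard.1 hR).1
        linarith
      rcases Nat.eq_zero_or_pos r with h0 | hr1
      · rw [if_pos h0, zero_mul, zero_mul, add_zero]
        refine s1.trans (Finset.sum_le_sum_of_subset_of_nonneg
          (Finset.powersetCard_mono (Finset.subset_univ T)) fun R _ _ => f0 R)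
      · rw [if_neg (by omega)]
        obtain ⟨P2, hP2⟩ : ∃ P2, P2 = (powersetCard (r - 1) T ×ˢ (univ \ T)).image
          (fun p : Finset (Fin n) × Fin n => insert p.2 p.1) := ⟨_, rfl⟩
        have hinj : Set.InjOn (fun p : Finset (Fin n) × Fin n => insert p.2 p.1)
            (powersetCard (r - 1) T ×ˢ (univ \ T) : Finset (Finset (Fin n) × Fin n)) := by
          rintro ⟨S, x⟩ hSx ⟨S', y⟩ hSy h
          simp only [Finset.coe_product, Set.mem_prod, Finset.mem_coe, Finset.mem_powersetCard,
            Finset.mem_sdiff] at hSx hSy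
          simp only at h
          have hxS : ∀ {S : Finset (Fin n)} {x : Fin n}, S ⊆ T → x ∉ T →
              (insert x S) ∩ T = S := by
            intro S x hS hx
            rw [Finset.insert_inter_of_notMem hx]
            exact Finset.inter_eq_left.2 hS
          have e1 := hxS hSx.1.1 hSx.2.2
          have e2 := hxS hSy.1.1 hSy.2.2
          rw [h, e2] at e1
          have h2 : x ∈ insert y S' := by rw [← h]; exact Finset.mem_insert_self _ _
          rcases Finset.mem_insert.1 h2 with h3 | h3
          · rw [h3, ← e1]
          · exact absurd (hSy.1.1 h3) hSx.2.2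
        have hcard : P2.card = t.choose (r - 1) * (n - t) := by
          rw [hP2, Finset.card_image_of_injOn hinj, Finset.card_product, Finset.card_powersetCard,
            hT, Finset.card_sdiff_of_subset (Finset.subset_univ T), Finset.card_univ,
            Fintype.card_fin, hT]
        have hdisj : Disjoint (powersetCard r T) P2 := by
          rw [Finset.disjoint_left]
          intro R hR hR2
          rw [hP2, Finset.mem_image] at hR2
          obtain ⟨⟨S, x⟩, hp, he⟩ := hR2
          simp only [Finset.mem_product, Finset.mem_sdiff] at hp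
          simp only at he
          have : x ∈ R := by rw [← he]; exact Finset.mem_insert_self _ _
          exact hp.2.2 ((Finset.mem_powersetCard.1 hR).1 this)
        have hsub2 : powersetCard r T ∪ P2 ⊆ powersetCard r (univ : Finset (Fin n)) := by
          refine Finset.union_subset (Finset.powersetCard_mono (Finset.subset_univ T)) ?_
          intro R hR2
          rw [hP2, Finset.mem_image] at hR2
          obtain ⟨⟨S, x⟩, hp, he⟩ := hR2
          simp only [Finset.mem_product, Finset.mem_sdiff, Finset.mem_powersetCard] at hp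
          simp only at he
          rw [Finset.mem_powersetCard]
          refine ⟨Finset.subset_univ _, ?_⟩
          rw [← he, Finset.card_insert_of_notMem (fun h => hp.2.2 (hp.1.1 h)), hp.1.2]
          omega
        have s2 : (t.choose (r - 1) : ℝ) * ((n : ℝ) - t) * (max (1 - μ) 0) ^ 2 ≤
            ∑ R ∈ P2, (max (dg (star (t + 1) T) R - μ) 0) ^ 2 := by
          have e : (t.choose (r - 1) : ℝ) * ((n : ℝ) - t) * (max (1 - μ) 0) ^ 2 =
              ∑ R ∈ P2, (max (1 - μ) 0) ^ 2 := by
            rw [Finset.sum_const, hcard, nsmul_eq_mul, Nat.cast_mul, Nat.cast_sub (by omega)]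
          rw [e]
          refine Finset.sum_le_sum fun R hR => ?_
          apply pow_le_pow_left₀ (le_max_right _ _)
          refine max_le_max ?_ le_rfl
          rw [hP2, Finset.mem_image] at hR
          obtain ⟨⟨S, x⟩, hp, he⟩ := hR
          simp only [Finset.mem_product, Finset.mem_sdiff, Finset.mem_powersetCard] at hp
          simp only at he
          have := hd2 S hp.1.1 x hp.2.2
          rw [he] at this
          linarith
        calc _ ≤ ∑ R ∈ powersetCard r T, (max (dg (star (t + 1) T) R - μ) 0) ^ 2 +
              ∑ R ∈ P2, (max (dg (star (t + 1) T) R - μ) 0) ^ 2 := add_le_add s1 s2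
          _ = ∑ R ∈ powersetCard r T ∪ P2, (max (dg (star (t + 1) T) R - μ) 0) ^ 2 :=
              (Finset.sum_union hdisj).symm
          _ ≤ _ := Finset.sum_le_sum_of_subset_of_nonneg hsub2 fun R _ _ => f0 R
    refine ub.trans (le_trans ?_ lb)
    exact h2 t r ((n : ℝ) - t) μ ht hr (by
      have : ((2 * (t + 1) : ℕ) : ℝ) ≤ n := by exact_mod_cast hn
      push_cast at this
      linarith) hμ

end Pool.Agent.DPL.H18
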