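import Pool.Agent.DPL.StmtsC
import Pool.Agent.Helper59_DPS.All
import Pool.Agent.Helper77_DPS.SYM

/-!
Squad DPL (MP_d97b4e_co), part C, rows LAD, DIS, VDM, KBD.
-/

set_option autoImplicit false

namespace Pool.Agent.DPL.H18

open Finset Polynomial Pool.Agent.DPS

theorem dg_eq_ip {n k : ℕ} (f : KS n k → ℝ) (R : Finset (Fin n)) :
    dg f R = ip (Pool.Agent.DPS.star k R) f := by
  unfold dg ip Pool.Agent.DPS.star
  refine Finset.sum_congr rfl fun F _ => ?_
  split_ifs <;> simp

/-- Row LAD. -/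
theorem lad : LADStmt := by
  intro n k f R
  have h1 : dg (Y n k f) R = ip (Y n k (Pool.Agent.DPS.star k R)) f := by
    rw [dg_eq_ip]
    exact (H77.sym n k _ _).symm
  have h2 := H59.str n k R
  rw [h2] at h1
  have h3 : ip (y n R.card • Pool.Agent.DPS.star k R -
      ((k : ℝ) - R.card + 1) • ∑ a ∈ R, Pool.Agent.DPS.star k (R.erase a)) f =
      y n R.card * dg f R - ((k : ℝ) - R.card + 1) * ∑ x ∈ R, dg f (R.erase x) := by
    have e : ∑ x ∈ R, dg f (R.erase x) =
        ∑ F : KS n k, (∑ a ∈ R, Pool.Agent.DPS.star k (R.erase a)) F * f F := by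
      have e1 : ∀ x ∈ R, dg f (R.erase x) =
          ∑ F : KS n k, Pool.Agent.DPS.star k (R.erase x) F * f F := fun x _ => dg_eq_ip f _
      rw [Finset.sum_congr rfl e1, Finset.sum_comm]
      refine Finset.sum_congr rfl fun F _ => ?_
      rw [Finset.sum_apply, Finset.sum_mul]
    rw [e, dg_eq_ip f R]
    unfold ip
    rw [Finset.mul_sum, Finset.mul_sum, ← Finset.sum_sub_distrib]
    refine Finset.sum_congr rfl fun F _ => ?_
    simp only [Pi.sub_apply, Pi.smul_apply, smul_eq_mul]
    ring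
  rw [h3] at h1
  linarith

/-- Row DIS. -/
theorem dis : DISStmt := by
  intro n k f R
  have e1 : ∑ j ∈ Finset.range (R.card + 1), (-1 : ℝ) ^ j * ∑ J ∈ powersetCard j R, dg f J =
      ∑ J ∈ R.powerset, (-1 : ℝ) ^ J.card * dg f J := by
    rw [Finset.sum_powerset]
    refine Finset.sum_congr rfl fun j _ => ?_
    rw [Finset.mul_sum]
    refine Finset.sum_congr rfl fun J hJ => ?_
    rw [(Finset.mem_powersetCard.1 hJ).2]
  rw [e1]
  have e2 : ∑ J ∈ R.powerset, (-1 : ℝ) ^ J.card * dg f J =
      ∑ F : KS n k, f F * ∑ J ∈ R.powerset, if J ⊆ F.1 then (-1 : ℝ) ^ J.card else 0 := by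
    unfold dg
    simp only [Finset.mul_sum]
    rw [Finset.sum_comm]
    refine Finset.sum_congr rfl fun F _ => Finset.sum_congr rfl fun J _ => ?_
    split_ifs
    · ring
    · ring
  rw [e2]
  refine Finset.sum_congr rfl fun F _ => ?_
  have e3 : ∑ J ∈ R.powerset, (if J ⊆ F.1 then (-1 : ℝ) ^ J.card else 0) =
      ∑ J ∈ (R ∩ F.1).powerset, (-1 : ℝ) ^ J.card := by
    rw [← Finset.sum_filter]
    refine Finset.sum_congr ?_ fun _ _ => rfl
    ext J
    simp only [Finset.mem_filter, Finset.mem_powerset, Finset.subset_inter_iff]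
  have e4 : ∑ J ∈ (R ∩ F.1).powerset, (-1 : ℝ) ^ J.card = if R ∩ F.1 = ∅ then 1 else 0 := by
    have h := Finset.sum_powerset_neg_one_pow_card (x := R ∩ F.1)
    have h2 : ((∑ J ∈ (R ∩ F.1).powerset, (-1 : ℤ) ^ J.card : ℤ) : ℝ) =
        ((if R ∩ F.1 = ∅ then 1 else 0 : ℤ) : ℝ) := by rw [h]
    push_cast at h2
    exact h2
  rw [e3, e4]
  by_cases hd : Disjoint R F.1
  · rw [if_pos hd, if_pos (Finset.disjoint_iff_inter_eq_empty.1 hd), mul_one]
  · rw [if_neg hd, if_neg (fun h => hd (Finset.disjoint_iff_inter_eq_empty.2 h)), mul_zero]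

/-- Row VDM. -/
theorem vdm : VDMStmt := by
  intro a
  induction a with
  | zero => intro A B _ _; simp
  | succ a ih =>
    intro A B hA hB
    obtain ⟨A', rfl⟩ : ∃ A', A = A' + 1 := ⟨A - 1, by omega⟩
    obtain ⟨B', rfl⟩ : ∃ B', B = B' + 1 := ⟨B - 1, by omega⟩
    have i1 := ih (A' + 1) (B' + 1) (by omega) (by omega)
    have i2 := ih A' B' (by omega) (by omega)
    have split : ∑ j ∈ Finset.range (a + 1 + 1), (-1 : ℝ) ^ j * ((a + 1).choose j : ℝ) *
        ((B' + 1 - j).descFactorial (a + 1 - j) : ℝ) * ((A' + 1).descFactorial j : ℝ) =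
        ∑ j ∈ Finset.range (a + 1), (-1 : ℝ) ^ j * (a.choose j : ℝ) *
          ((B' + 1 - j).descFactorial (a + 1 - j) : ℝ) * ((A' + 1).descFactorial j : ℝ) +
        ∑ i ∈ Finset.range (a + 1), (-1 : ℝ) ^ (i + 1) * (a.choose i : ℝ) *
          ((B' - i).descFactorial (a - i) : ℝ) * ((A' + 1).descFactorial (i + 1) : ℝ) := by
      have l1 : ∑ j ∈ Finset.range (a + 1), (-1 : ℝ) ^ j * (a.choose j : ℝ) *
          ((B' + 1 - j).descFactorial (a + 1 - j) : ℝ) * ((A' + 1).descFactorial j : ℝ) =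
          ∑ j ∈ Finset.range (a + 1 + 1), (-1 : ℝ) ^ j * (a.choose j : ℝ) *
          ((B' + 1 - j).descFactorial (a + 1 - j) : ℝ) * ((A' + 1).descFactorial j : ℝ) := by
        rw [Finset.sum_range_succ _ (a + 1), Nat.choose_succ_self]
        simp
      rw [l1, Finset.sum_range_succ' _ (a + 1), Finset.sum_range_succ' _ (a + 1)]
      simp only [Nat.choose_zero_right, Nat.add_sub_add_right]
      have l2 : ∀ i ∈ Finset.range (a + 1), (-1 : ℝ) ^ (i + 1) * ((a + 1).choose (i + 1) : ℝ) *
          ((B' - i).descFactorial (a - i) : ℝ) * ((A' + 1).descFactorial (i + 1) : ℝ) =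
          (-1 : ℝ) ^ (i + 1) * (a.choose (i + 1) : ℝ) *
          ((B' - i).descFactorial (a - i) : ℝ) * ((A' + 1).descFactorial (i + 1) : ℝ) +
          (-1 : ℝ) ^ (i + 1) * (a.choose i : ℝ) *
          ((B' - i).descFactorial (a - i) : ℝ) * ((A' + 1).descFactorial (i + 1) : ℝ) := by
        intro i _
        rw [Nat.choose_succ_succ]
        push_cast
        ring
      rw [Finset.sum_congr rfl l2, Finset.sum_add_distrib]
      ring
    have p1 : ∑ j ∈ Finset.range (a + 1), (-1 : ℝ) ^ j * (a.choose j : ℝ) *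
          ((B' + 1 - j).descFactorial (a + 1 - j) : ℝ) * ((A' + 1).descFactorial j : ℝ) =
        ((B' + 1 - a : ℕ) : ℝ) * ∑ j ∈ Finset.range (a + 1), (-1 : ℝ) ^ j * (a.choose j : ℝ) *
          ((B' + 1 - j).descFactorial (a - j) : ℝ) * ((A' + 1).descFactorial j : ℝ) := by
      rw [Finset.mul_sum]
      refine Finset.sum_congr rfl fun j hj => ?_
      have hj' : j ≤ a := by have := Finset.mem_range.1 hj; omega
      have e : (B' + 1 - j).descFactorial (a + 1 - j) =
          (B' + 1 - a) * (B' + 1 - j).descFactorial (a - j) := by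
        rw [show a + 1 - j = (a - j) + 1 by omega, Nat.descFactorial_succ,
          show B' + 1 - j - (a - j) = B' + 1 - a by omega]
      rw [e]
      push_cast
      ring
    have p2 : ∑ i ∈ Finset.range (a + 1), (-1 : ℝ) ^ (i + 1) * (a.choose i : ℝ) *
          ((B' - i).descFactorial (a - i) : ℝ) * ((A' + 1).descFactorial (i + 1) : ℝ) =
        -((A' : ℝ) + 1) * ∑ i ∈ Finset.range (a + 1), (-1 : ℝ) ^ i * (a.choose i : ℝ) *
          ((B' - i).descFactorial (a - i) : ℝ) * (A'.descFactorial i : ℝ) := by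
      rw [Finset.mul_sum]
      refine Finset.sum_congr rfl fun i _ => ?_
      rw [Nat.succ_descFactorial_succ]
      push_cast
      ring
    rw [split, p1, p2, i1, i2]
    have e5 : B' + 1 - (A' + 1) = B' - A' := by omega
    rw [e5, Nat.descFactorial_succ, Nat.cast_mul, Nat.cast_sub (by omega), Nat.cast_sub (by omega),
      Nat.cast_sub (by omega)]
    push_cast
    ring

/-- the ratio of the binomial coefficients -/
theorem ratio (d e s : ℕ) : (d + s + e).choose (e + s) * (e + s).descFactorial s =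
    (d + s).descFactorial s * (d + s + e).choose (d + s) := by
  have h1 := Nat.add_choose_mul_factorial_mul_factorial d (e + s)
  have h2 := Nat.add_choose_mul_factorial_mul_factorial e (d + s)
  have h3 := Nat.factorial_mul_descFactorial (show s ≤ e + s by omega)
  have h4 := Nat.factorial_mul_descFactorial (show s ≤ d + s by omega)
  rw [Nat.add_sub_cancel] at h3 h4
  rw [show d + (e + s) = d + s + e by ring, ← h3] at h1
  rw [show e + (d + s) = d + s + e by ring, ← h4] at h2
  have h5 : 0 < e.factorial * d.factorial := by positivity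
  apply Nat.eq_of_mul_eq_mul_right h5
  calc (d + s + e).choose (e + s) * (e + s).descFactorial s * (e.factorial * d.factorial)
      = (d + s + e).choose (e + s) * d.factorial * (e.factorial * (e + s).descFactorial s) := by
        ring
    _ = (d + s + e).factorial := h1
    _ = (d + s + e).choose (d + s) * e.factorial * (d.factorial * (d + s).descFactorial s) :=
        h2.symm
    _ = _ := by ring

/-- Row KBD. -/
theorem kbd : KBDStmt := by
  intro n k r lam hn hr hrk hlam
  obtain ⟨s, rfl⟩ : ∃ s, r = s + 1 := ⟨r - 1, by omega⟩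
  obtain ⟨d, hd⟩ : ∃ d, k - 2 = d + s := ⟨k - 2 - s, by omega⟩
  obtain ⟨e, he⟩ : ∃ e, n - k - 1 = e + s := ⟨n - k - 1 - s, by omega⟩
  have hN : n - 2 - (s + 1) = d + s + e := by omega
  have hNK : n - 2 - (k - 2) = e + s + 1 := by omega
  have hc1 : 0 < (n - 2).choose (k - 2) := Nat.choose_pos (by omega)
  have hc2 : 0 < (n - 2 - (s + 1)).choose (k - 2) := Nat.choose_pos (by omega)
  have hc1' : (0 : ℝ) < ((n - 2).choose (k - 2) : ℝ) := by exact_mod_cast hc1
  have hc2' : (0 : ℝ) < ((n - 2 - (s + 1)).choose (k - 2) : ℝ) := by exact_mod_cast hc2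
  -- the difference
  have hdiff : (dl (n - 2) (k - 2) s - dl (n - 2) (k - 2) (s + 1)) *
      ((n - 2).choose (k - 2) : ℝ) = ((d + s + e).choose (e + s) : ℝ) := by
    unfold dl
    rw [hN, hNK, show n - 2 - s = d + s + e + 1 by omega, Nat.choose_succ_succ]
    push_cast
    field_simp
    ring
  have hle : max (lam - dl (n - 2) (k - 2) (s + 1)) 0 * ((n - 2).choose (k - 2) : ℝ) ≤
      ((d + s + e).choose (e + s) : ℝ) := by
    rcases le_total (lam - dl (n - 2) (k - 2) (s + 1)) 0 with h | h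
    · rw [max_eq_right h, zero_mul]; positivity
    · rw [max_eq_left h, ← hdiff]
      apply mul_le_mul_of_nonneg_right _ hc1'.le
      have : lam ≤ dl (n - 2) (k - 2) s := hlam
      linarith
  have hpos : (0 : ℝ) < ((e + s).descFactorial s : ℝ) := by
    exact_mod_cast Nat.descFactorial_pos.2 (by omega)
  rw [Nat.add_sub_cancel, he, div_le_div_iff₀ hc2' hpos, hN, hd]
  rw [hd] at hle
  refine (mul_le_mul_of_nonneg_right hle hpos.le).trans (le_of_eq ?_)
  exact_mod_cast ratio d e s

end Pool.Agent.DPL.H18
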