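import Pool.Agent.DPL.StmtsC
import Pool.Agent.Helper39_DPS.MEV

/-!
Squad DPL (MP_d97b4e_co), part C, row MON: comparison of the weights for `t = 2`.
-/

set_option autoImplicit false

namespace Pool.Agent.DPL.H18

open Finset Polynomial Pool.Agent.DPS

/-- the ratio of the falling factorials -/
noncomputable def rr (n k r l : ℕ) : ℝ :=
  ((n - k - l).descFactorial (r - l) : ℝ) / ((k - l).descFactorial (r - l) : ℝ)

/-- the eigenvalues -/
noncomputable def hh (n k r l : ℕ) : ℝ :=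
  ((k - l).choose (k - r) : ℝ) * ((n - r - l).choose (k - r) : ℝ)

theorem ta_eq (n k r l : ℕ) (κ : ℝ) : ta n k r l κ = 1 + (-1 : ℝ) ^ l * (κ * rr n k r l) := by
  unfold ta rr
  ring

theorem rr_nonneg (n k r l : ℕ) : 0 ≤ rr n k r l := by unfold rr; positivity

theorem hh_nonneg (n k r l : ℕ) : 0 ≤ hh n k r l := by unfold hh; positivity

theorem rr_succ {n k r l : ℕ} (hn : 2 * k ≤ n) (hl : l < r) (hr : r ≤ k) :
    rr n k r l * ((k : ℝ) - l) = rr n k r (l + 1) * ((n : ℝ) - k - l) := by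
  obtain ⟨a, ha⟩ : ∃ a, r - l = a + 1 := ⟨r - l - 1, by omega⟩
  obtain ⟨b, hb⟩ : ∃ b, n - k - l = b + 1 := ⟨n - k - l - 1, by omega⟩
  obtain ⟨c, hc⟩ : ∃ c, k - l = c + 1 := ⟨k - l - 1, by omega⟩
  have e1 : rr n k r l = ((b : ℝ) + 1) * (b.descFactorial a : ℝ) /
      (((c : ℝ) + 1) * (c.descFactorial a : ℝ)) := by
    unfold rr
    rw [ha, hb, hc, Nat.succ_descFactorial_succ, Nat.succ_descFactorial_succ]
    push_cast
    ring
  have e2 : rr n k r (l + 1) = (b.descFactorial a : ℝ) / (c.descFactorial a : ℝ) := by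
    unfold rr
    rw [show r - (l + 1) = a by omega, show n - k - (l + 1) = b by omega,
      show k - (l + 1) = c by omega]
  have e3 : (k : ℝ) - l = (c : ℝ) + 1 := by
    have : (((k - l : ℕ)) : ℝ) = ((c + 1 : ℕ) : ℝ) := by rw [hc]
    rw [Nat.cast_sub (by omega)] at this
    push_cast at this
    exact this
  have e4 : (n : ℝ) - k - l = (b : ℝ) + 1 := by
    have : (((n - k - l : ℕ)) : ℝ) = ((b + 1 : ℕ) : ℝ) := by rw [hb]
    rw [Nat.cast_sub (by omega), Nat.cast_sub (by omega)] at this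
    push_cast at this
    exact this
  have hc0 : (c.descFactorial a : ℝ) ≠ 0 := by
    have : 0 < c.descFactorial a := Nat.descFactorial_pos.2 (by omega)
    exact_mod_cast this.ne'
  have hc1 : (c : ℝ) + 1 ≠ 0 := by positivity
  rw [e1, e2, e3, e4]
  field_simp

theorem hh_succ {n k r l : ℕ} (hn : 2 * k ≤ n) (hl : l < r) (hr : r ≤ k) :
    hh n k r (l + 1) * (((k : ℝ) - l) * ((n : ℝ) - r - l)) =
      hh n k r l * (((r : ℝ) - l) * ((n : ℝ) - k - l)) := by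
  have h1 := Nat.choose_mul_succ_eq (k - (l + 1)) (k - r)
  have h2 := Nat.choose_mul_succ_eq (n - r - (l + 1)) (k - r)
  rw [show k - (l + 1) + 1 = k - l by omega, show k - l - (k - r) = r - l by omega] at h1
  rw [show n - r - (l + 1) + 1 = n - r - l by omega,
    show n - r - l - (k - r) = n - k - l by omega] at h2
  have c1 : ((k - l : ℕ) : ℝ) = (k : ℝ) - l := Nat.cast_sub (by omega)
  have c2 : ((r - l : ℕ) : ℝ) = (r : ℝ) - l := Nat.cast_sub (by omega)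
  have c3 : ((n - r - l : ℕ) : ℝ) = (n : ℝ) - r - l := by
    rw [Nat.cast_sub (by omega), Nat.cast_sub (by omega)]
  have c4 : ((n - k - l : ℕ) : ℝ) = (n : ℝ) - k - l := by
    rw [Nat.cast_sub (by omega), Nat.cast_sub (by omega)]
  have h1' : ((k - (l + 1)).choose (k - r) : ℝ) * ((k : ℝ) - l) =
      ((k - l).choose (k - r) : ℝ) * ((r : ℝ) - l) := by
    rw [← c1, ← c2]; exact_mod_cast h1
  have h2' : ((n - r - (l + 1)).choose (k - r) : ℝ) * ((n : ℝ) - r - l) =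
      ((n - r - l).choose (k - r) : ℝ) * ((n : ℝ) - k - l) := by
    rw [← c3, ← c4]; exact_mod_cast h2
  unfold hh
  calc _ = (((k - (l + 1)).choose (k - r) : ℝ) * ((k : ℝ) - l)) *
        (((n - r - (l + 1)).choose (k - r) : ℝ) * ((n : ℝ) - r - l)) := by ring
    _ = _ := by rw [h1', h2']; ring

/-- decreasing -/
theorem rr_le {n k r l : ℕ} (hn : 2 * k ≤ n) (hl : l < r) (hr : r ≤ k) :
    rr n k r (l + 1) ≤ rr n k r l := by
  have h := rr_succ hn hl hr
  have h0 := rr_nonneg n k r (l + 1)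
  have hk : (0 : ℝ) < (k : ℝ) - l := by
    have : (l : ℝ) + 1 ≤ k := by exact_mod_cast (show l + 1 ≤ k by omega)
    linarith
  have hn' : (2 : ℝ) * k ≤ n := by exact_mod_cast hn
  have h1 : rr n k r (l + 1) * ((k : ℝ) - l) ≤ rr n k r (l + 1) * ((n : ℝ) - k - l) :=
    mul_le_mul_of_nonneg_left (by linarith) h0
  rw [← h] at h1
  exact le_of_mul_le_mul_right h1 hk

theorem rr_anti {n k r : ℕ} (hn : 2 * k ≤ n) (hr : r ≤ k) {i j : ℕ} (hij : i ≤ j) (hj : j ≤ r) :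
    rr n k r j ≤ rr n k r i := by
  induction j, hij using Nat.le_induction with
  | base => exact le_rfl
  | succ j hij ih => exact (rr_le hn (by omega) hr).trans (ih (by omega))

theorem hh_le {n k r l : ℕ} (hn : 2 * k ≤ n) (hl : l < r) (hr : r ≤ k) :
    hh n k r (l + 1) ≤ hh n k r l := by
  have h := hh_succ hn hl hr
  have h0 := hh_nonneg n k r l
  have hk : (l : ℝ) + 1 ≤ k := by exact_mod_cast (show l + 1 ≤ k by omega)
  have hlr : (l : ℝ) + 1 ≤ r := by exact_mod_cast (show l + 1 ≤ r by omega)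
  have hrk : (r : ℝ) ≤ k := by exact_mod_cast hr
  have hn' : (2 : ℝ) * k ≤ n := by exact_mod_cast hn
  have hp : (0 : ℝ) < ((k : ℝ) - l) * ((n : ℝ) - r - l) := mul_pos (by linarith) (by linarith)
  have h1 : ((r : ℝ) - l) * ((n : ℝ) - k - l) ≤ ((k : ℝ) - l) * ((n : ℝ) - r - l) :=
    mul_le_mul (by linarith) (by linarith) (by linarith) (by linarith)
  have h2 := mul_le_mul_of_nonneg_left h1 h0
  rw [← h] at h2
  exact le_of_mul_le_mul_right h2 hp

theorem hh_anti {n k r : ℕ} (hn : 2 * k ≤ n) (hr : r ≤ k) {i j : ℕ} (hij : i ≤ j) (hj : j ≤ r) :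
    hh n k r j ≤ hh n k r i := by
  induction j, hij using Nat.le_induction with
  | base => exact le_rfl
  | succ j hij ih => exact (hh_le hn (by omega) hr).trans (ih (by omega))

/-- Row MON. -/
theorem mon : MONStmt := by
  intro n k r l j κ hn3 hr3 hrk hκ hκ2 hl1 hl2 hj2 hjr
  have hn : 2 * k ≤ n := by omega
  have hr : r ≤ k := by omega
  have hv : ∀ i, i ≤ r → (mp n k r).eval (y n i) = hh n k r i := by
    intro i hi
    rw [H39.mev n k r i hn hr (by omega), if_pos hi]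
    rfl
  rw [hv j hjr, hv l (by omega), ta_eq, ta_eq]
  -- real versions
  have R3 : (3 : ℝ) ≤ r := by exact_mod_cast hr3
  have RK : (r : ℝ) + 2 ≤ k := by exact_mod_cast hrk
  have RN : (2 : ℝ) * k ≤ n := by exact_mod_cast hn
  obtain ⟨x, hx⟩ : ∃ x : ℕ → ℝ, x = fun i => κ * rr n k r i := ⟨_, rfl⟩
  have hxe : ∀ i, κ * rr n k r i = x i := fun i => by rw [hx]
  rw [hxe, hxe]
  have hx0 : ∀ i, 0 ≤ x i := fun i => by rw [hx]; exact mul_nonneg hκ (rr_nonneg _ _ _ _)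
  have hxa : ∀ {i i' : ℕ}, i ≤ i' → i' ≤ r → x i' ≤ x i := by
    intro i i' h1 h2
    rw [hx]
    exact mul_le_mul_of_nonneg_left (rr_anti hn hr h1 h2) hκ
  have hh0 := hh_nonneg n k r
  -- bound of `x 1`
  have hx1 : x 1 * ((k : ℝ) - 1) ≤ (k : ℝ) - r := by
    obtain ⟨s, rfl⟩ : ∃ s, r = s + 2 := ⟨r - 2, by omega⟩
    obtain ⟨m, hm⟩ : ∃ m, k - 2 = m := ⟨_, rfl⟩
    have e1 : s + 2 - 1 = s + 1 := by omega
    have hd : (k - 1).descFactorial (s + 1) = (k - 1) * (k - 2).descFactorial s := by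
      rw [show k - 1 = (k - 2) + 1 by omega, Nat.succ_descFactorial_succ]
    have hd2 : (k - 2).descFactorial (s + 1) = (k - 2 - s) * (k - 2).descFactorial s :=
      Nat.descFactorial_succ _ _
    have p1 : (0 : ℝ) < ((k - 2).descFactorial s : ℝ) := by
      exact_mod_cast Nat.descFactorial_pos.2 (by omega)
    have p2 : (0 : ℝ) < ((n - k - 1).descFactorial (s + 1) : ℝ) := by
      exact_mod_cast Nat.descFactorial_pos.2 (by omega)
    have c1 : ((k - 1 : ℕ) : ℝ) = (k : ℝ) - 1 := by rw [Nat.cast_sub (by omega)]; norm_num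
    have c2 : ((k - 2 - s : ℕ) : ℝ) = (k : ℝ) - (s + 2 : ℕ) := by
      rw [show k - 2 - s = k - (s + 2) by omega, Nat.cast_sub (by omega)]
    have hk1 : (0 : ℝ) < (k : ℝ) - 1 := by linarith
    rw [e1] at hκ2
    have h1 : x 1 ≤ ((k - 2).descFactorial (s + 1) : ℝ) / ((n - k - 1).descFactorial (s + 1) : ℝ) *
        rr n k (s + 2) 1 := by
      rw [hx]
      exact mul_le_mul_of_nonneg_right hκ2 (rr_nonneg _ _ _ _)
    have h2 : ((k - 2).descFactorial (s + 1) : ℝ) / ((n - k - 1).descFactorial (s + 1) : ℝ) *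
        rr n k (s + 2) 1 * ((k : ℝ) - 1) = (k : ℝ) - (s + 2 : ℕ) := by
      unfold rr
      rw [e1, hd, hd2, Nat.cast_mul, Nat.cast_mul, c1, c2]
      field_simp
    calc x 1 * ((k : ℝ) - 1) ≤ _ := mul_le_mul_of_nonneg_right h1 hk1.le
      _ = _ := h2
  -- bound of `x 2`
  have hx2 : x 2 * ((n : ℝ) - k - 1) ≤ (k : ℝ) - r := by
    have h := rr_succ (l := 1) hn (by omega) hr
    have h' : x 1 * ((k : ℝ) - 1) = x 2 * ((n : ℝ) - k - 1) := by
      rw [hx]
      push_cast at h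
      linear_combination κ * h
    linarith
  have habs : ∀ i, (1 + (-1 : ℝ) ^ i * x i) ^ 2 ≤ (1 + x i) ^ 2 := by
    intro i
    have := hx0 i
    rcases neg_one_pow_eq_or ℝ i with h | h
    · rw [h]; nlinarith
    · rw [h]; nlinarith
  have hxj : x j ≤ x 2 := hxa (by omega) hjr
  have hj' : (1 + (-1 : ℝ) ^ j * x j) ^ 2 ≤ (1 + x 2) ^ 2 :=
    (habs j).trans (pow_le_pow_left₀ (by have := hx0 j; linarith) (by linarith) 2)
  rcases (show l = 2 ∨ l = 1 by omega) with h | h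
  · -- `l = 2`
    rw [h]
    have e : (1 + (-1 : ℝ) ^ 2 * x 2) ^ 2 = (1 + x 2) ^ 2 := by norm_num
    rw [e]
    exact mul_le_mul hj' (hh_anti hn hr (by omega) hjr) (hh0 _) (sq_nonneg _)
  · -- `l = 1`
    rw [h]
    have e : (1 + (-1 : ℝ) ^ 1 * x 1) ^ 2 = (1 - x 1) ^ 2 := by
      rw [pow_one]; ring
    rw [e]
    have hh3 : hh n k r j ≤ hh n k r 3 := hh_anti hn hr (by omega) hjr
    have s1 := hh_succ (l := 1) hn (by omega) hr
    have s2 := hh_succ (l := 2) hn (by omega) hr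
    push_cast at s1 s2
    have k1 : (0 : ℝ) < (k : ℝ) - 1 := by linarith
    have k2 : (0 : ℝ) < (k : ℝ) - 2 := by linarith
    have n1 : (0 : ℝ) < (n : ℝ) - k - 1 := by linarith
    have n2 : (0 : ℝ) < (n : ℝ) - k - 2 := by linarith
    have m1 : (0 : ℝ) < (n : ℝ) - r - 1 := by linarith
    have m2 : (0 : ℝ) < (n : ℝ) - r - 2 := by linarith
    have h3e : hh n k r 3 * (((k : ℝ) - 1) * ((n : ℝ) - r - 1)) * (((k : ℝ) - 2) * ((n : ℝ) - r - 2)) =
        hh n k r 1 * (((r : ℝ) - 1) * ((n : ℝ) - k - 1)) * (((r : ℝ) - 2) * ((n : ℝ) - k - 2)) := by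
      have e1 : hh n k r (1 + 1) = hh n k r 2 := rfl
      have e2 : hh n k r (2 + 1) = hh n k r 3 := rfl
      rw [e1] at s1
      rw [e2] at s2
      linear_combination (((k : ℝ) - 1) * ((n : ℝ) - r - 1)) * s2 +
        (((r : ℝ) - 2) * ((n : ℝ) - k - 2)) * s1
    -- `(1 + x 2)^2 (n-k-1)(n-k-2) ≤ (n-r-1)(n-r-2)`
    have hsq : (1 + x 2) ^ 2 * (((n : ℝ) - k - 1) * ((n : ℝ) - k - 2)) ≤
        ((n : ℝ) - r - 1) * ((n : ℝ) - r - 2) := by
      have a1 : (1 + x 2) * ((n : ℝ) - k - 1) ≤ (n : ℝ) - r - 1 := by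
        have : (1 + x 2) * ((n : ℝ) - k - 1) = ((n : ℝ) - k - 1) + x 2 * ((n : ℝ) - k - 1) := by
          ring
        rw [this]; linarith
      have a2 : (1 + x 2) * ((n : ℝ) - k - 2) ≤ (n : ℝ) - r - 2 := by
        have : (1 + x 2) * ((n : ℝ) - k - 2) = (1 + x 2) * ((n : ℝ) - k - 1) - (1 + x 2) := by ring
        rw [this]
        have := hx0 2
        linarith
      calc (1 + x 2) ^ 2 * (((n : ℝ) - k - 1) * ((n : ℝ) - k - 2))
          = ((1 + x 2) * ((n : ℝ) - k - 1)) * ((1 + x 2) * ((n : ℝ) - k - 2)) := by ring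
        _ ≤ ((n : ℝ) - r - 1) * ((n : ℝ) - r - 2) :=
            mul_le_mul a1 a2 (mul_nonneg (by have := hx0 2; linarith) n2.le) m1.le
    -- `(1 - x 1) (k - 1) ≥ r - 1`
    have b1 : (r : ℝ) - 1 ≤ (1 - x 1) * ((k : ℝ) - 1) := by
      have : (1 - x 1) * ((k : ℝ) - 1) = ((k : ℝ) - 1) - x 1 * ((k : ℝ) - 1) := by ring
      rw [this]; linarith
    have b2 : ((r : ℝ) - 1) ^ 2 ≤ (1 - x 1) ^ 2 * ((k : ℝ) - 1) ^ 2 := by
      have := pow_le_pow_left₀ (show (0 : ℝ) ≤ (r : ℝ) - 1 by linarith) b1 2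
      rwa [mul_pow] at this
    have b3 : ((r : ℝ) - 2) * ((k : ℝ) - 1) ≤ ((r : ℝ) - 1) * ((k : ℝ) - 2) := by nlinarith
    -- assemble
    have hp : (0 : ℝ) < (((k : ℝ) - 1) * ((n : ℝ) - r - 1)) * (((k : ℝ) - 2) * ((n : ℝ) - r - 2)) *
        ((k : ℝ) - 1) := by positivity
    apply le_of_mul_le_mul_right _ hp
    have hA : (1 + (-1 : ℝ) ^ j * x j) ^ 2 * hh n k r j ≤ (1 + x 2) ^ 2 * hh n k r 3 :=
      mul_le_mul hj' hh3 (hh0 _) (sq_nonneg _)
    calc (1 + (-1 : ℝ) ^ j * x j) ^ 2 * hh n k r j *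
          ((((k : ℝ) - 1) * ((n : ℝ) - r - 1)) * (((k : ℝ) - 2) * ((n : ℝ) - r - 2)) *
            ((k : ℝ) - 1))
        ≤ (1 + x 2) ^ 2 * hh n k r 3 *
          ((((k : ℝ) - 1) * ((n : ℝ) - r - 1)) * (((k : ℝ) - 2) * ((n : ℝ) - r - 2)) *
            ((k : ℝ) - 1)) := mul_le_mul_of_nonneg_right hA hp.le
      _ = (1 + x 2) ^ 2 * (hh n k r 3 * (((k : ℝ) - 1) * ((n : ℝ) - r - 1)) *
            (((k : ℝ) - 2) * ((n : ℝ) - r - 2))) * ((k : ℝ) - 1) := by ring
      _ = ((1 + x 2) ^ 2 * (((n : ℝ) - k - 1) * ((n : ℝ) - k - 2))) *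
            (hh n k r 1 * ((r : ℝ) - 1) * (((r : ℝ) - 2) * ((k : ℝ) - 1))) := by rw [h3e]; ring
      _ ≤ (((n : ℝ) - r - 1) * ((n : ℝ) - r - 2)) *
            (hh n k r 1 * ((r : ℝ) - 1) * (((r : ℝ) - 1) * ((k : ℝ) - 2))) := by
          have q1 : 0 ≤ hh n k r 1 * ((r : ℝ) - 1) := mul_nonneg (hh0 1) (by linarith)
          refine mul_le_mul hsq (mul_le_mul_of_nonneg_left b3 q1) ?_ (by positivity)
          exact mul_nonneg q1 (mul_nonneg (by linarith) k1.le)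
      _ = (((n : ℝ) - r - 1) * ((n : ℝ) - r - 2) * ((k : ℝ) - 2) * hh n k r 1) *
            ((r : ℝ) - 1) ^ 2 := by ring
      _ ≤ (((n : ℝ) - r - 1) * ((n : ℝ) - r - 2) * ((k : ℝ) - 2) * hh n k r 1) *
            ((1 - x 1) ^ 2 * ((k : ℝ) - 1) ^ 2) :=
          mul_le_mul_of_nonneg_left b2 (mul_nonneg (by positivity) (hh0 1))
      _ = _ := by ring

end Pool.Agent.DPL.H18
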